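import Pool.Agent.TH606.Arov.Final

open MeasureTheory Filter Topology
open Pool.Agent.Helper630.Szego Pool.Agent.TH606.Arov

namespace Pool.Agent.Results.MP_0d9f0f_an.ConditionFourFails

/-- For all finite dimensional `N`, `M` with `0 < dim N ≤ dim M` there is `χ` in `𝔹_a(M,N)` satisfying the Szegő
condition `log det (I - χ* χ) ∈ L¹(𝕋)` for which condition (4) fails: with the outer factors
`P₊⁻¹ = A`, `P₋⁻¹ = D*` of `χ` (`I - χ χ* = A A*`, `I - χ* χ = D* D` on the circle, `A`, `D` outer and nonnegative at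
the origin), `f₀ = q₋ P₊⁻¹ = P₋ χ* P₊⁻¹` and the Hankel operator `Γ` of `f₀`, it is not true that
`P₊(z, ρ)⁻¹ q₊(z, ρ)` tends to `χ(z)` as `ρ → 1⁻` for all `z` in the disc. -/
theorem result (N M : Type*) [NormedAddCommGroup N] [InnerProductSpace ℂ N] [CompleteSpace N] [FiniteDimensional ℂ N]
    [NormedAddCommGroup M] [InnerProductSpace ℂ M] [CompleteSpace M] [FiniteDimensional ℂ M]
    (hN : 0 < Module.finrank ℂ N) (hNM : Module.finrank ℂ N ≤ Module.finrank ℂ M) :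
    ∃ χ : ℂ → M →L[ℂ] N, InBa χ ∧ ∃ X : TT → M →L[ℂ] N, IsBoundary χ X ∧
      (∀ᵐ θ, 0 < szDet (X θ)) ∧ Integrable (fun θ => Real.log (szDet (X θ))) ∧
      ∃ (A : ℂ → N →L[ℂ] N) (A' : TT → N →L[ℂ] N) (D : ℂ → M →L[ℂ] M) (D' : TT → M →L[ℂ] M),
        IsFactors X A A' D D' ∧ ∃ Γ : L2 N →L[ℂ] L2 M, IsHankel (symbolF X A' D') Γ ∧ ¬ Condition4 χ Γ :=
  main N M hN hNM

end Pool.Agent.Results.MP_0d9f0f_an.ConditionFourFails
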